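import Pool.Agent.K7.H69.GD.F4

/-!
# Prime pairs with difference in `A - A`, for every set `A` of shifts

Let `A` be any finite set of integers in `[0, (log x) ^ C]`. Part (1) is a lower bound, with the singular
series and with the constant `1 / 2` of the Bombieri-Vinogradov level, for the number of the pairs of primes
`p, p - d` with `p ≤ x` and `d = |a - a'|`, summed over the pairs `a ≠ a'` of elements of `A`.

Part (2): if `A` has at least `(1 / 2 + η) (log x) / ε` elements, then, weighted by the singular series, a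
proportion of at least `c ε` of the pairs `a ≠ a'` has an even difference `d` that is good, which means that
`π₂(x, d) ≥ (1 - ε) (1 + (2 - η) / log x) 𝔖(d) x / (log x) ^ 2`. This applies for all `ε ≥ (log x) ^ (-B)`; in
particular it applies at the precision `ε₀ / (log log x) ^ 2` of the question. For example every `m` has a
multiple `j m`, `1 ≤ j ≤ (1 / 2 + η) (log x) / ε`, which is good.

Part (3): every set of at least `binomial (r + s) r` integers, where `s + 1 ≥ (1 / 2 + η) (log x) / ε`, contains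
`r + 1` integers all whose differences are good (no assumption of admissibility is needed: the integers have
the same parity because good differences are even).

Part (4): `E(x) ≥ (3 / 2 - η) / log x` for large `x`.

Method: the second moment of `∑ Λ(n + a)`, minus a truncated model, over short blocks, evaluated with the
Bombieri-Vinogradov theorem; the model is the truncated Ramanujan expansion of `Λ`, and the inequality is a
consequence of the positivity of squares, for every `A`.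
-/

set_option autoImplicit false

namespace Pool.Agent.Results.MP_678834_nt.EverySetOfShifts

open Finset Filter Topology Pool.Agent.H387R2 Pool.Agent.K7.H69

/-- The twin prime constant `C₂`. -/
noncomputable def C2 : ℝ := ∏' p : {p : ℕ // p.Prime ∧ 2 < p}, (1 - 1 / (((p.1 : ℕ) : ℝ) - 1) ^ 2)

/-- `𝔖(d) = 2 C₂ ∏_{p ∣ d, p ≥ 3} (p - 1) / (p - 2)` for even `d`, and `𝔖(d) = 0` for odd `d`. -/
noncomputable def S (d : ℕ) : ℝ :=
  if Even d then 2 * C2 * ∏ p ∈ d.primeFactors.filter (fun p : ℕ => 2 < p), (((p : ℝ) - 1) / ((p : ℝ) - 2)) else 0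

/-- `π₂(x, d)`, the number of primes `p ≤ x` with `p - d` prime. -/
noncomputable def pi2 (x : ℝ) (d : ℕ) : ℕ :=
  ((Icc 1 ⌊x⌋₊).filter (fun p : ℕ => p.Prime ∧ (p - d).Prime)).card

/-- `|a - b|`. -/
def diff (a b : ℕ) : ℕ := ((a : ℤ) - b).natAbs

/-- `d` is even and `π₂(x, d) ≥ (1 - ε) (1 + (2 - η) / log x) 𝔖(d) x / (log x) ^ 2`. -/
def Good (η ε x : ℝ) (d : ℕ) : Prop :=
  Even d ∧ (1 - ε) * (1 + (2 - η) / Real.log x) * (S d * x / Real.log x ^ 2) ≤ (pi2 x d : ℝ)

lemma S_eq {d : ℕ} (hd : 1 ≤ d) : S d = Uni.CT {0, d} := by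
  unfold S
  split_ifs with he
  · rw [GD.CT_pair (by rcases he with ⟨k, hk⟩; omega) he]
    rfl
  · exact (GD.CT_odd he).symm

lemma diff_pos {a b : ℕ} (h : a ≠ b) : 1 ≤ diff a b := by
  unfold diff
  omega

lemma S_nonneg {d : ℕ} (hd : 1 ≤ d) : 0 ≤ S d := by
  rw [S_eq hd]
  exact Uni.CT_nonneg _

open Classical in
/-- Let `0 < η ≤ 1 / 4`. There is `c > 0` such that for all `B`, `C` and all large `x`, for every finite set `A`
of integers in `[0, (log x) ^ C]`:
(1) `∑ π₂(x, |a - a'|) ≥ (x / (log x) ^ 2) (1 + (2 - η) / log x) (∑ 𝔖(|a - a'|) - (1 / 2 + η) |A| log x -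
|A| ^ 2 / (log x) ^ B)`, the sums over all pairs `(a, a')` of elements of `A` with `a ≠ a'`;
(2) if `(log x) ^ (-B) ≤ ε ≤ 1` and `|A| ≥ (1 / 2 + η) (log x) / ε`, then the sum of `𝔖(|a - a'|)` over the
pairs for which `|a - a'|` is good is at least `c ε |A| ^ 2`;
(3) if `(log x) ^ (-B) ≤ ε ≤ 1`, `s + 1 ≥ (1 / 2 + η) (log x) / ε` and `|A| ≥ binomial (r + s) r`, then `A`
contains `r + 1` elements all whose differences are good.
(4) For all large `x` some even `d` in `[2, (log x) ^ 2]` satisfies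
`π₂(x, d) (log x) ^ 2 / (𝔖(d) x) ≥ 1 + (3 / 2 - η) / log x`. -/
theorem result (η : ℝ) (hη : 0 < η) (hη1 : η ≤ 1 / 4) :
    (∃ c : ℝ, 0 < c ∧ ∀ B C : ℕ, ∃ X : ℝ, ∀ x : ℝ, X ≤ x →
      ∀ A : Finset ℕ, (∀ a ∈ A, (a : ℝ) ≤ Real.log x ^ C) →
        (x / Real.log x ^ 2 * (1 + (2 - η) / Real.log x) *
          (∑ z ∈ A.offDiag, S (diff z.1 z.2) - (1 / 2 + η) * A.card * Real.log x -
            (A.card : ℝ) ^ 2 / Real.log x ^ B) ≤ ∑ z ∈ A.offDiag, (pi2 x (diff z.1 z.2) : ℝ)) ∧
        (∀ ε : ℝ, 1 / Real.log x ^ B ≤ ε → ε ≤ 1 →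
          ((1 / 2 + η) * Real.log x ≤ ε * A.card →
            c * ε * (A.card : ℝ) ^ 2 ≤
              ∑ z ∈ A.offDiag.filter (fun z => Good η ε x (diff z.1 z.2)), S (diff z.1 z.2)) ∧
          (∀ r s : ℕ, (1 / 2 + η) * Real.log x ≤ ε * (s + 1) → (r + s).choose r ≤ A.card →
            ∃ M ⊆ A, M.card = r + 1 ∧ ∀ a ∈ M, ∀ b ∈ M, a < b → Good η ε x (b - a)))) ∧
    (∃ X : ℝ, ∀ x : ℝ, X ≤ x → ∃ d : ℕ, Even d ∧ 2 ≤ d ∧ (d : ℝ) ≤ Real.log x ^ 2 ∧ 0 < S d ∧
      1 + (3 / 2 - η) / Real.log x ≤ (pi2 x d : ℝ) * Real.log x ^ 2 / (S d * x)) := by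
  have hfl : ∀ x : ℝ, ∀ P : ℕ → Prop, (∀ᶠ X : ℕ in atTop, P X) → ∃ X : ℝ, ∀ x : ℝ, X ≤ x → P ⌊x⌋₊ := by
    intro _ P hP
    obtain ⟨N, hN⟩ := eventually_atTop.1 hP
    exact ⟨N, fun x hx => hN _ (Nat.le_floor hx)⟩
  have main : ∀ η : ℝ, 0 < η → η ≤ 1 / 4 → ∃ c : ℝ, 0 < c ∧ ∀ B C : ℕ, ∃ X : ℝ, ∀ x : ℝ, X ≤ x →
      ∀ A : Finset ℕ, (∀ a ∈ A, (a : ℝ) ≤ Real.log x ^ C) →
        (x / Real.log x ^ 2 * (1 + (2 - η) / Real.log x) *
          (∑ z ∈ A.offDiag, S (diff z.1 z.2) - (1 / 2 + η) * A.card * Real.log x -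
            (A.card : ℝ) ^ 2 / Real.log x ^ B) ≤ ∑ z ∈ A.offDiag, (pi2 x (diff z.1 z.2) : ℝ)) ∧
        (∀ ε : ℝ, 1 / Real.log x ^ B ≤ ε → ε ≤ 1 →
          ((1 / 2 + η) * Real.log x ≤ ε * A.card →
            c * ε * (A.card : ℝ) ^ 2 ≤
              ∑ z ∈ A.offDiag.filter (fun z => Good η ε x (diff z.1 z.2)), S (diff z.1 z.2))) := by
    intro η hη hη1
    obtain ⟨c, hc, h⟩ := GD.real_main η hη hη1
    refine ⟨c, hc, fun B C => ?_⟩
    obtain ⟨X, hX⟩ := hfl 0 _ (h B C)
    refine ⟨max X 1, fun x hx A hA => ?_⟩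
    have hx0 : 0 ≤ x := by linarith [le_max_right X 1]
    obtain ⟨h1, h2⟩ := hX x ((le_max_left _ _).trans hx) x (Nat.floor_le hx0) (Nat.lt_floor_add_one x) A hA
    have hSsum : ∀ T : Finset (ℕ × ℕ), T ⊆ A.offDiag →
        ∑ z ∈ T, S (diff z.1 z.2) = ∑ z ∈ T, Uni.CT {0, GD.dist z.1 z.2} := by
      intro T hT
      refine sum_congr rfl fun z hz => ?_
      exact S_eq (diff_pos (mem_offDiag.1 (hT hz)).2.2)
    refine ⟨?_, ?_⟩
    · rw [hSsum _ (Subset.refl _)]
      exact h1
    · intro ε hε hε1 hN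
      rw [hSsum _ (filter_subset _ _)]
      refine h2 ε hε hε1 hN _ (filter_subset _ _) ?_
      intro z hz he hle
      rw [mem_filter]
      refine ⟨hz, he, ?_⟩
      rw [S_eq (diff_pos (mem_offDiag.1 hz).2.2)]
      exact hle
  refine ⟨?_, ?_⟩
  · obtain ⟨c, hc, h⟩ := main η hη hη1
    refine ⟨c, hc, fun B C => ?_⟩
    obtain ⟨X, hX⟩ := h B C
    refine ⟨max X (Real.exp 1), fun x hx A hA => ?_⟩
    have hx1 := (le_max_left _ _).trans hx
    have hxe := (le_max_right _ _).trans hx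
    have hx0 : 0 < x := lt_of_lt_of_le (Real.exp_pos _) hxe
    have hl : 1 ≤ Real.log x := by rwa [Real.le_log_iff_exp_le hx0]
    obtain ⟨h1, h2⟩ := hX x hx1 A hA
    refine ⟨h1, fun ε hε hε1 => ⟨h2 ε hε hε1, fun r s hs hch => ?_⟩⟩
    have hε0 : 0 < ε := lt_of_lt_of_le (by positivity) hε
    rcases GD.ramsey (fun a b => Good η ε x (b - a)) (r + s) r s rfl A hch with h | ⟨M, hM, hMc, hMG⟩
    · exact h
    · exfalso
      have h3 := (hX x hx1 M (fun a ha => hA a (hM ha))).2 ε hε hε1 (by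
        rw [hMc]
        push_cast
        exact hs)
      have h4 : M.offDiag.filter (fun z => Good η ε x (diff z.1 z.2)) = ∅ := by
        rw [filter_eq_empty_iff]
        intro z hz hg
        obtain ⟨z1, z2, z3⟩ := mem_offDiag.1 hz
        rcases lt_or_gt_of_ne z3 with h | h
        · refine hMG _ z1 _ z2 h ?_
          have : diff z.1 z.2 = z.2 - z.1 := by
            unfold diff
            omega
          rwa [this] at hg
        · refine hMG _ z2 _ z1 h ?_
          have : diff z.1 z.2 = z.1 - z.2 := by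
            unfold diff
            omega
          rwa [this] at hg
      rw [h4, sum_empty, hMc] at h3
      have : 0 < c * ε * (((s + 1 : ℕ) : ℝ)) ^ 2 := by positivity
      linarith
  · obtain ⟨c, hc, h⟩ := main (η / 4) (by positivity) (by linarith)
    obtain ⟨X, hX⟩ := h 2 2
    refine ⟨max X (Real.exp (4 / η)), fun x hx => ?_⟩
    have hx1 := (le_max_left _ _).trans hx
    have hxe := (le_max_right _ _).trans hx
    have hx0 : 0 < x := lt_of_lt_of_le (Real.exp_pos _) hxe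
    have hl : 4 / η ≤ Real.log x := by rwa [Real.le_log_iff_exp_le hx0]
    set l := Real.log x with hl'
    have hη4 : 16 ≤ 4 / η := by
      rw [le_div_iff₀ hη]
      linarith
    have hl0 : 0 < l := by linarith
    set A := range (⌊l ^ 2⌋₊ + 1) with hA
    have hAc : l ^ 2 ≤ (A.card : ℝ) := by
      rw [hA, card_range]
      push_cast
      exact (Nat.lt_floor_add_one _).le
    have hAl : ∀ a ∈ A, (a : ℝ) ≤ l ^ 2 := by
      intro a ha
      rw [hA, mem_range] at ha
      exact (Nat.le_floor_iff (by positivity)).1 (by omega)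
    obtain ⟨ε, hε⟩ : ∃ ε, ε = (1 / 2 + η / 4) / l := ⟨_, rfl⟩
    have hε0 : 0 < ε := by
      rw [hε]
      positivity
    have hε1 : ε ≤ 1 / l := by
      rw [hε]
      exact div_le_div_of_nonneg_right (by linarith) hl0.le
    have hl1 : 1 / l ≤ 1 := by
      rw [div_le_one hl0]
      linarith
    have h2 := (hX x hx1 A hAl).2 ε (by
      rw [hε, div_le_div_iff₀ (by positivity) hl0]
      have : l ≤ 1 / 2 * l ^ 2 := by nlinarith
      nlinarith) (by linarith) (by
      have e1 : ε * l ^ 2 ≤ ε * A.card := mul_le_mul_of_nonneg_left hAc hε0.le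
      refine le_trans (le_of_eq ?_) e1
      rw [hε, ← hl']
      field_simp)
    have h3 : 0 < c * ε * (A.card : ℝ) ^ 2 := by
      have : 0 < (A.card : ℝ) := lt_of_lt_of_le (by positivity) hAc
      positivity
    have h4 := lt_of_lt_of_le h3 h2
    obtain ⟨z, hz, hzS⟩ := exists_lt_of_sum_lt (s := A.offDiag.filter (fun z => Good (η / 4) ε x (diff z.1 z.2)))
      (f := fun _ => (0 : ℝ)) (g := fun z => S (diff z.1 z.2)) (by
        rw [sum_const_zero]
        exact h4)
    rw [mem_filter, mem_offDiag] at hz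
    obtain ⟨⟨z1, z2, z3⟩, hev, hge⟩ := hz
    beta_reduce at hzS
    set d := diff z.1 z.2 with hd
    have hd1 : 1 ≤ d := diff_pos z3
    have hdl : (d : ℝ) ≤ l ^ 2 := by
      have : d ≤ z.1 ∨ d ≤ z.2 := by
        rw [hd]
        unfold diff
        omega
      rcases this with h | h
      · exact (Nat.cast_le.2 h).trans (hAl _ z1)
      · exact (Nat.cast_le.2 h).trans (hAl _ z2)
    refine ⟨d, hev, by rcases hev with ⟨k, hk⟩; omega, hdl, hzS, ?_⟩
    rw [le_div_iff₀ (by positivity)]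
    have h5 := mul_le_mul_of_nonneg_right hge (by positivity : (0 : ℝ) ≤ l ^ 2)
    have e1 : (1 - ε) * (1 + (2 - η / 4) / l) * (S d * x / l ^ 2) * l ^ 2 =
        (1 - ε) * (1 + (2 - η / 4) / l) * (S d * x) := by
      field_simp
    rw [e1] at h5
    refine le_trans ?_ h5
    refine mul_le_mul_of_nonneg_right ?_ (by positivity)
    have e2 : ε * ((2 - η / 4) / l) ≤ 1 / l * (2 / l) := by
      refine mul_le_mul hε1 ?_ (div_nonneg (by linarith) hl0.le) (by positivity)
      exact div_le_div_of_nonneg_right (by linarith) hl0.le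
    have e3 : 1 / l * (2 / l) ≤ 1 / l * (η / 2) := by
      refine mul_le_mul_of_nonneg_left ?_ (by positivity)
      rw [div_le_iff₀ hl0]
      rw [div_le_iff₀ hη] at hl
      linarith
    have e4 : (1 - ε) * (1 + (2 - η / 4) / l) = 1 + (2 - η / 4) / l - ε - ε * ((2 - η / 4) / l) := by ring
    have e5 : 1 + (3 / 2 - η) / l = 1 + (2 - η / 4) / l - (1 / 2 + η / 4) / l - 1 / l * (η / 2) := by
      field_simp
      ring
    rw [e4, e5, ← hε]
    linarith

end Pool.Agent.Results.MP_678834_nt.EverySetOfShifts
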