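import Pool.Agent.K7.H64.BQ.PairL

/-!
# The large sieve at few points for prime pairs, uniformly in the difference

For `k` points with spacing `δ` and arbitrary complex numbers `a n`, supported on those integers `n` of an interval of
length `N` for which `n` and `n + d` are prime (or have no prime factors up to a fixed power of `N`), the bound
`N + 1 / δ` of the large sieve inequality is improved by the factor `(log (2 k) / log N) ^ 2`, times the product of
`1 + 1 / p` over the prime factors `p > k` of `d`. The constant depends neither on `d` nor on the position of the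
interval. For one point this is the upper bound sieve with the singular series of `d`; the influence of the
singular series fades as the number of points increases.

Method: for every set `S` of integers the values of the trigonometric polynomials at the points are estimated by
duality, with a majorant of the indicator function of the sifted set, given by a sieve of Brun and Hooley, in the
middle. The majorant is split into a part of large denominators, of small supremum norm, and a part which is a
nonnegative function of the integers without prime factors up to `k ^ C`.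
-/

set_option autoImplicit false

namespace Pool.Agent.Results.MP_678834_nt.LargeSievePairs

open Finset

/-- `n` and `n + d` are both prime or both have no prime factors up to `y`. -/
def Sifted (d : ℕ) (y : ℝ) (n : ℕ) : Prop :=
  (n.Prime ∧ (n + d).Prime) ∨ ∀ p : ℕ, p.Prime → p ∣ n * (n + d) → y < p

/-- **The large sieve at few points for prime pairs, uniformly in the difference.** For every `κ > 0` there is `C`
such that for all even `d > 0`, all `A`, all `N ≥ 2`, all sets `S` of integers `n` in `(A, A + N]` for which `n` and
`n + d` are both prime or both have no prime factors up to `N ^ κ`, all `k` real numbers `α i` that have pairwise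
distance at least `δ` modulo `1` and all complex numbers `a n`, the sum over `i` of `|∑ a n e(n α_i)| ^ 2`, with `n`
in `S`, is at most `C (N + 1 / δ) (log (2 k) / log N) ^ 2 ∏ (1 + 1 / p) ∑ |a n| ^ 2`, the product over the prime
factors `p > k` of `d`. -/
theorem result (κ : ℝ) (hκ : 0 < κ) : ∃ C : ℝ, 0 < C ∧ ∀ (d A N : ℕ) (S : Finset ℕ), Even d → 0 < d → 2 ≤ N →
    S ⊆ Ioc A (A + N) → (∀ n ∈ S, Sifted d ((N : ℝ) ^ κ) n) →
    ∀ (k : ℕ) (α : Fin k → ℝ) (δ : ℝ), 0 < δ →
      (∀ i j : Fin k, i ≠ j → ∀ m : ℤ, δ ≤ |α i - α j - m|) →
      ∀ a : ℕ → ℂ,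
        ∑ i : Fin k, ‖∑ n ∈ S, a n * Complex.exp (2 * Real.pi * Complex.I * n * α i)‖ ^ 2 ≤
          C * ((N : ℝ) + 1 / δ) * ((Real.log (2 * k) / Real.log N) ^ 2 *
            ∏ p ∈ d.primeFactors with k < p, (1 + 1 / (p : ℝ))) * ∑ n ∈ S, ‖a n‖ ^ 2 := by
  obtain ⟨C, hC, h⟩ := Pool.Agent.K7.H64.BQ.lsf_pair hκ
  refine ⟨C, hC, fun d A N S hde hd hN hSI hS k α δ hδ hsep a => ?_⟩
  refine h d hde hd N hN A S hSI (fun n hn => ?_) k α δ hδ hsep a
  have e0 := (Pool.Agent.K7.H64.BQ.fd_eval d (n : ℤ)).1
  have e1 := (Pool.Agent.K7.H64.BQ.fd_eval d (n : ℤ)).2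
  rcases hS n hn with h2 | h2
  · right
    intro i
    fin_cases i
    · change ((Pool.Agent.K7.H64.BQ.fd d 0).eval (n : ℤ)).natAbs.Prime
      rw [e0]
      simpa using h2.1
    · change ((Pool.Agent.K7.H64.BQ.fd d 1).eval (n : ℤ)).natAbs.Prime
      rw [e1]
      have : ((n : ℤ) + d) = ((n + d : ℕ) : ℤ) := by push_cast; ring
      rw [this, Int.natAbs_natCast]
      exact h2.2
  · left
    rintro q hq ⟨i, hd'⟩
    apply h2 q hq
    fin_cases i
    · change (q : ℤ) ∣ (Pool.Agent.K7.H64.BQ.fd d 0).eval (n : ℤ) at hd'
      rw [e0] at hd'
      exact dvd_mul_of_dvd_left (by exact_mod_cast hd') _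
    · change (q : ℤ) ∣ (Pool.Agent.K7.H64.BQ.fd d 1).eval (n : ℤ) at hd'
      rw [e1] at hd'
      exact dvd_mul_of_dvd_right (by exact_mod_cast hd') _

end Pool.Agent.Results.MP_678834_nt.LargeSievePairs
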