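import Pool.Agent.K7.H64.BQ.PairC

/-!
# For almost all `d` the primes `p` with `p + d` prime are an additive basis of bounded order

There is `k₀` such that for every `k ≥ k₀` the following holds, for almost all even `d` of every residue class of
every modulus `q ≤ x ^ (2 / 3 - ρ)`, where `d ≤ x / (log x) ^ (A + 12)`: every integer `n` with
`x / (log x) ^ A ≤ n ≤ x` which satisfies the necessary conditions modulo `2` and `3` is a sum of exactly `k` primes
`p` for which `p + d` is a prime.

Method: for almost all `d` the asymptotic formula for the number of the pairs holds in all residue classes and for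
all `y ≤ x` (starting library). The set `T` of the `p ≤ y` with `p` and `p + d` prime has the order of magnitude of
the upper bound of the sieve; by the restriction theorem for sifted sets (the large sieve inequality at few points,
uniform in `d`) the sumset `T + T` has a positive density, bounded below by an absolute constant. Modulo
`max T - min T` the iterated doublings of `T - min T` reach a subgroup after boundedly many steps, and the residue
classes of the elements of `T` show that its index divides `6`.
-/

set_option autoImplicit false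

namespace Pool.Agent.Results.MP_678834_nt.PrimePairBases

/-- **The primes `p` with `p + d` prime as a basis, for almost all `d`.** There is `k₀` such that for all `k ≥ k₀`,
`ρ > 0`, `A`, `B`, `T` and all large `x`: for every modulus `1 ≤ q ≤ x ^ (2 / 3 - ρ)` and every residue class `b`
modulo `q` with `gcd(b, q) ≤ (log x) ^ T`, for all but at most `x / (q (log x) ^ B)` of the even integers
`0 < d ≤ x / (log x) ^ (A + 12)`, `d ≡ b (mod q)`, every integer `n` with `x / (log x) ^ A ≤ n ≤ x`, `n ≡ k (mod 2)`
and, if `3 ∤ d`, `n ≡ k d (mod 3)`, is a sum of exactly `k` primes `p` (a multiset of `k` elements) for which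
`p + d` is a prime. -/
theorem result : ∃ k₀ : ℕ, ∀ k : ℕ, k₀ ≤ k → ∀ ρ : ℝ, 0 < ρ → ∀ A B T : ℕ, ∃ x₀ : ℕ, ∀ x : ℕ, x₀ ≤ x →
    ∀ q : ℕ, 1 ≤ q → (q : ℝ) ≤ (x : ℝ) ^ (2 / 3 - ρ) → ∀ b : ℤ, (Int.gcd b q : ℝ) ≤ Real.log x ^ T →
    ∃ Bad : Finset ℕ, (Bad.card : ℝ) ≤ x / (q * Real.log x ^ B) ∧
    ∀ d : ℕ, 0 < d → Even d → (d : ℝ) ≤ x / Real.log x ^ (A + 12) → (d : ℤ) ≡ b [ZMOD q] → d ∉ Bad →
    ∀ n : ℕ, n ≡ k [MOD 2] → (3 ∣ d ∨ n ≡ k * d [MOD 3]) → x / Real.log x ^ A ≤ n → n ≤ x →
    ∃ m : Multiset ℕ, m.card = k ∧ (∀ p ∈ m, p.Prime ∧ (p + d).Prime) ∧ m.sum = n :=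
  Pool.Agent.K7.H64.BQ.basis_pairs

end Pool.Agent.Results.MP_678834_nt.PrimePairBases
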