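import Pool.Agent.K7.H64.BQ.PairD

/-!
# Sumsets of dense sets of prime pairs, uniformly in the difference

Let `A` be a set of integers `n` in an interval of length `N` for which `n` and `n + d` are prime (or have no prime
factors up to a fixed power of `N`), and let `B` be such a set for a second difference `d'`, possibly the same. The
number of the elements of `A` is at most a constant times `P(d) N / (log N) ^ 2`, where `P(d)` is the product of
`1 + 1 / p` over the prime factors of `d`, which has the order of the singular series. If both sets have at least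
`N / (log N) ^ (21 / 10)` elements, up to the factors `P(d)`, `P(d')`, and if `1 / X` is the relative density of `B`,
then `A + B` is larger than `A` by the factor `(log N) ^ 2 / ((loglog X) ^ 2 P_t(d))`, where `P_t(d)` is the product
of `1 + 1 / p` over the prime factors `p > t = log X` of `d`. The constants do not depend on `d`, `d'` or the position
of the intervals. In particular sets of positive relative density have a sumset of positive density, for every `d`,
however large the singular series is.

Method: the integers are split into the classes modulo the product `W` of the primes up to `w`, a small multiple of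
`log N`. For two classes in which both sets have their expected density up to a power of `w`, the trigonometric
polynomials of `A` and `B` are bounded by the large sieve inequality at few points and the restriction theorem; since
the classes are free of small prime factors, there is no loss. The classes themselves are treated by an inequality for
the entropy of sums of independent random elements of the finite group `Z / W` which avoid few classes modulo each
prime. All the estimates depend only on the number of the classes which are sifted.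
-/

set_option autoImplicit false

namespace Pool.Agent.Results.MP_678834_nt.SumsetsOfPairs

open Finset

/-- `n` and `n + d` are both prime or both have no prime factors up to `y`. -/
def Sifted (d : ℕ) (y : ℝ) (n : ℕ) : Prop :=
  (n.Prime ∧ (n + d).Prime) ∨ ∀ p : ℕ, p.Prime → p ∣ n * (n + d) → y < p

/-- The product of `1 + 1 / p` over the prime factors `p > t` of `d`. -/
noncomputable def P (t : ℝ) (d : ℕ) : ℝ := ∏ p ∈ d.primeFactors.filter (fun p : ℕ => t < p), (1 + 1 / (p : ℝ))

theorem good_of {d : ℕ} {κ : ℝ} {N n : ℕ} (h : Sifted d ((N : ℝ) ^ κ) n) :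
    Pool.Agent.K7.H64.LS.Good (Pool.Agent.K7.H64.BQ.fd d) κ N n := by
  have e0 := (Pool.Agent.K7.H64.BQ.fd_eval d (n : ℤ)).1
  have e1 := (Pool.Agent.K7.H64.BQ.fd_eval d (n : ℤ)).2
  rcases h with h2 | h2
  · right
    intro i
    fin_cases i
    · change ((Pool.Agent.K7.H64.BQ.fd d 0).eval (n : ℤ)).natAbs.Prime
      rw [e0]
      simpa using h2.1
    · change ((Pool.Agent.K7.H64.BQ.fd d 1).eval (n : ℤ)).natAbs.Prime
      rw [e1]
      have : ((n : ℤ) + d) = ((n + d : ℕ) : ℤ) := by push_cast; ring
      rw [this, Int.natAbs_natCast]
      exact h2.2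
  · left
    rintro q hq ⟨i, hd'⟩
    apply h2 q hq
    fin_cases i
    · change (q : ℤ) ∣ (Pool.Agent.K7.H64.BQ.fd d 0).eval (n : ℤ) at hd'
      rw [e0] at hd'
      exact dvd_mul_of_dvd_left (by exact_mod_cast hd') _
    · change (q : ℤ) ∣ (Pool.Agent.K7.H64.BQ.fd d 1).eval (n : ℤ) at hd'
      rw [e1] at hd'
      exact dvd_mul_of_dvd_right (by exact_mod_cast hd') _

/-- **Sumsets of dense sets of prime pairs, uniformly in the difference.** For every `κ > 0` there is `c > 0` such that
for all even `d, d' > 0`, all `N ≥ 2`, all sets `A` of integers in an interval `(x, x + N]` and all sets `B` of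
integers in an interval `(y, y + N]`, such that `n` and `n + d` are prime or have no prime factors up to `N ^ κ` for
all `n ∈ A`, `n` and `n + d'` are prime or have no prime factors up to `N ^ κ` for all `n ∈ B`, and `A`, `B` have at
least `P(d) N / (log N) ^ (21 / 10)` and `P(d') N / (log N) ^ (21 / 10)` elements: if
`X = P(d') N / (|B| (log N) ^ 2)`, the number of the sums `a + b`, `a ∈ A`, `b ∈ B`, is at least
`c |A| (log N) ^ 2 / ((log (2 + log (2 + X))) ^ 2 P_t(d))`, `t = log (2 + X)`. -/
theorem result (κ : ℝ) (hκ : 0 < κ) : ∃ c : ℝ, 0 < c ∧ ∀ (d d' x y N : ℕ) (A B : Finset ℕ), Even d → 0 < d →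
    Even d' → 0 < d' → 2 ≤ N → A ⊆ Ioc x (x + N) → B ⊆ Ioc y (y + N) →
    (∀ n ∈ A, Sifted d ((N : ℝ) ^ κ) n) → (∀ n ∈ B, Sifted d' ((N : ℝ) ^ κ) n) →
    P 0 d * N / Real.log N ^ (21 / 10 : ℝ) ≤ (A.card : ℝ) →
    P 0 d' * N / Real.log N ^ (21 / 10 : ℝ) ≤ (B.card : ℝ) →
    ∀ X : ℝ, X = P 0 d' * N / (B.card * Real.log N ^ 2) →
      c * (A.card * Real.log N ^ 2) / (Real.log (2 + Real.log (2 + X)) ^ 2 * P (Real.log (2 + X)) d) ≤
        (((A ×ˢ B).image (fun t => t.1 + t.2)).card : ℝ) := by
  obtain ⟨c, hc, h⟩ := Pool.Agent.K7.H64.BQ.dense_pair hκ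
  refine ⟨c, hc, ?_⟩
  intro d d' x y N A B hde hd hde' hd' hN hA hB hSA hSB hdA hdB X hX
  have h1 := h d d' hde hd hde' hd' N hN x y A B ((A ×ˢ B).image (fun t => t.1 + t.2)) hA hB
    (fun n hn => good_of (hSA n hn)) (fun n hn => good_of (hSB n hn))
    (fun m hm n hn => mem_image.2 ⟨(m, n), mem_product.2 ⟨hm, hn⟩, rfl⟩) hdA hdB
  have hN2 : (2 : ℝ) ≤ N := by exact_mod_cast hN
  have hlN : 0 < Real.log N := Real.log_pos (by linarith)
  have hX0 : 0 ≤ X := by
    rw [hX]
    have : 0 ≤ P 0 d' := by
      unfold P
      exact prod_nonneg fun p _ => by positivity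
    positivity
  have h2 : 0 < Real.log (2 + X) := Real.log_pos (by linarith)
  have h3 : 0 < Real.log (2 + Real.log (2 + X)) := Real.log_pos (by linarith)
  have h4 : 0 < P (Real.log (2 + X)) d := by
    unfold P
    exact prod_pos fun p _ => by positivity
  rw [div_le_iff₀ (by positivity)]
  refine (h1.trans (le_of_eq ?_))
  rw [hX]
  unfold P Pool.Agent.K7.H64.BQ.PP
  ring

end Pool.Agent.Results.MP_678834_nt.SumsetsOfPairs
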